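import Pool.Agent.Q179.NF.Additive

/-!
# MP_def4bf_gt, Q1: answer NO

In `X = ∏_{n ≥ 2} ℤ/n` the set `{x | ∀ n, x n ≠ 0}` is closed, Haar-null and Haar-meager, but
not covered by countably many Borel null-finite sets.  Definitions:
`Pool.Agent.Q179.NF.Additive` and below.
-/

open Set Filter Topology MeasureTheory

namespace Pool.Agent.Results.MP_def4bf_gt.NotEqual

open Pool.Agent.Q179.NF

universe u

/-- `HN_X`: subsets of Borel Haar-null sets. -/
def HN (X : Type u) [AddCommGroup X] [MeasurableSpace X] : Set (Set X) :=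
  {A | ∃ B : Set X, MeasurableSet B ∧ HaarNull B ∧ A ⊆ B}

/-- `HM_X`: subsets of Borel Haar-meager sets. -/
def HM (X : Type u) [AddCommGroup X] [TopologicalSpace X] [MeasurableSpace X] : Set (Set X) :=
  {A | ∃ B : Set X, MeasurableSet B ∧ HaarMeager B ∧ A ⊆ B}

/-- `σNF_X`: sets covered by countably many Borel null-finite sets. -/
def SNF (X : Type u) [AddCommGroup X] [TopologicalSpace X] [MeasurableSpace X] : Set (Set X) :=
  {A | ∃ B : ℕ → Set X, (∀ k, MeasurableSet (B k) ∧ NullFinite (B k)) ∧ A ⊆ ⋃ k, B k}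

/-- **Negative answer to Q1.**  There is a Polish abelian group `X` with
`HN_X ∩ HM_X ⊄ σNF_X`; in particular `σNF_X ≠ HN_X ∩ HM_X`. -/
theorem result : ∃ (X : Type) (_ : AddCommGroup X) (_ : TopologicalSpace X)
    (_ : IsTopologicalAddGroup X) (_ : PolishSpace X) (_ : MeasurableSpace X)
    (_ : BorelSpace X), ¬ (HN X ∩ HM X ⊆ SNF X) ∧ SNF X ≠ HN X ∩ HM X := by
  have key : ¬ (HN XZ ∩ HM XZ ⊆ SNF XZ) := by
    intro hsub
    have h1 : AZ ∈ HN XZ ∩ HM XZ :=
      ⟨⟨AZ, isClosed_AZ.measurableSet, haarNull_AZ, Subset.refl _⟩,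
        ⟨AZ, isClosed_AZ.measurableSet, haarMeager_AZ, Subset.refl _⟩⟩
    obtain ⟨B, hB, hcov⟩ := hsub h1
    refine not_covered B (fun j => ?_) (fun j => (hB j).2) hcov
    have h : (MeasurableSpace.pi : MeasurableSpace XZ) = borel XZ := BorelSpace.measurable_eq
    rw [← h]
    exact (hB j).1
  refine ⟨XZ, inferInstance, inferInstance, inferInstance, inferInstance, inferInstance,
    inferInstance, key, fun h => key h.symm.subset⟩

end Pool.Agent.Results.MP_def4bf_gt.NotEqual
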